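import Pool.Agent.H235R3.WC.Hard

/-!
# WAITER-CLIENT with explicitly listed edges is NP-hard

The instances are lists of edges, each of which is the list of its (different) vertices; the
vertices of the hypergraph are the numbers which occur in the edges.

The reduction is from 3SAT. For each variable `j` there are the vertices `x_j` and `x'_j` (its
literals), `y_j`, `t_j` and `z_j`, and for each clause `i` there are `g_i`, `h_i` and `b_i`. With
`Z_j = {z_0, ..., z_{j-1}}` and `G_i = {g_0, ..., g_{i-1}}` the edges are

* `Z_j + {x_j, x'_j}`,
* `Z_j + {y_j, t_j} + G_i + {b_i}` for all clauses `i`, and `Z_j + {y_j, t_j} + G_m`,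
* `Z_n + {y_j}`,
* `Z_n + G_i + {h_i, l}` for each literal `l` of the clause `i`, and `Z_n + G_m`.

Waiter offers for each variable first the literal of her choice together with `y_j`. If Client
takes `y_j` then she offers the other literal and `z_j`, otherwise `t_j` and `z_j`. In the end she
offers the pairs `g_i, h_i`.

For an unsatisfiable formula Client has a strategy which is based on the following potential
argument. As long as `z_j` is unclaimed, the sets of the level `j` (the first two kinds, without
the vertices `z_i`) have the potential exactly `1/2`, and Client wins as soon as it becomes smaller.
This leaves only few possible offers to Waiter: she cannot touch the vertices `g_i` before all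
variables are decided.
-/

namespace Pool.Agent.Results.MP_c85d9c_lc.ExplicitNPHard

open Pool.Agent.NPC Pool.Agent.H235R3.WC

/-- **WAITER-CLIENT with explicitly listed edges is NP-hard** under polynomial-time many-one
reductions. -/
theorem result : NPHardP WaiterClient := H235WC.hardI_waiterClient.toNPHardP

end Pool.Agent.Results.MP_c85d9c_lc.ExplicitNPHard
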